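import Pool.Agent.helper45.SGC.Spec

/-!
# Project SGC (MP_069684_lc): row EXV (values and automorphisms)
-/

set_option autoImplicit false

namespace Pool.Agent.SGC

open Finset Pool.Agent.helper38.Neg Pool.Agent.helper55.NT

/-- the count of the true kids, given the values of the kids -/
theorem EXV_count {n : ℕ} {W : Type} (C : SCirc n W) (ρ : Fin n → Fin n) (π : Equiv.Perm W) (hE : Ext C ρ π)
    (x : Fin n → Bool) (g : W) (hk : ∀ h ∈ C.kids g, C.val (x ∘ ρ) h = C.val x (π h)) :
    ((C.kids g).filter fun h => C.val (x ∘ ρ) h = true).card =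
      ((C.kids (π g)).filter fun h => C.val x h = true).card := by
  rw [hE.2.1 g, Finset.filter_map, Finset.card_map]
  refine congrArg Finset.card (Finset.filter_congr fun h hh => ?_)
  rw [hk h hh]
  rfl

theorem EXV_val {n : ℕ} {W : Type} (C : SCirc n W) (ρ : Fin n → Fin n) (π : Equiv.Perm W) (hE : Ext C ρ π)
    (x : Fin n → Bool) (k : ℕ) : ∀ g : W, C.rank g < k → C.val (x ∘ ρ) g = C.val x (π g) := by
  induction k with
  | zero => exact fun g hg => absurd hg (Nat.not_lt_zero _)
  | succ k ih =>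
    intro g hg
    rcases hl : C.lab g with _ | p
    · have hl' : C.lab (π g) = none := by rw [hE.1 g, hl]; rfl
      rw [C.val_none (x ∘ ρ) g hl, C.val_none x (π g) hl', hE.2.2.1 g,
        EXV_count C ρ π hE x g (fun h hh => ih h (lt_of_lt_of_le (C.acyc g h hh) (Nat.lt_succ_iff.1 hg)))]
    · have hl' : C.lab (π g) = some (ρ p) := by rw [hE.1 g, hl]; rfl
      rw [C.val_some (x ∘ ρ) g p hl, C.val_some x (π g) (ρ p) hl']
      rfl

theorem EXV : EXV_stmt := by
  intro n W C ρ π hE x g
  exact ⟨EXV_val C ρ π hE x _ g (Nat.lt_succ_self _),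
    EXV_count C ρ π hE x g fun h _ => EXV_val C ρ π hE x _ h (Nat.lt_succ_self _)⟩

end Pool.Agent.SGC
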